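import Pool.Agent.H92.D2.Wts
import Pool.Agent.H31.W3.H73.D2.Tle

/-!
# The paths are straight, from the windows

`wd_tls`: the structure `TlS` from `Wdat`.
-/

set_option autoImplicit false

namespace Pool.W.V1E

open Pool.V1E

open Finset Real MvPolynomial
open Pool.KA Pool.KSAT Pool.PB Pool.GEN Pool.D2R Pool.D2G30 Pool.ISO Pool.CHT Pool.CHX
open Pool.PB.Trl (rt rt_mem t_rt)
open Pool.Agent.H49.Ent Pool.Agent.H32.Dense Pool.STK Pool.K2S Pool.LA91 Pool.OWN68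
open Pool.UNJ (ceI)
open Pool.S6C

/-- **The paths are straight** in the window. -/
theorem wd_tls (D r : ℕ) : ∃ C : ℕ, ∀ {m J : ℕ} {F : Pool.KA.Fam m J} {c : ℕ → Fin m}
    {n M ar MB q₀ Q x u p e : ℕ} {s : ℕ → ℕ} {qe : Fin r → ℕ} {o : ℕ → ℕ}
    {z g gc gT g₀ : ℕ → ℕ → ℕ} {B : F.Ω → Prop}
    {G T : ℕ → Pool.GEN.PtT F → ℕ → MvPolynomial (Option (Fin m)) ℝ}
    {H TH : ℕ → Pool.GEN.LnT F → ℕ → MvPolynomial (Option (Fin m)) ℝ}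
    {Ht : Pool.GEN.LnT F → MvPolynomial (Option (Fin m)) ℝ} {k : ℕ},
    Pool.W.V1E.Wdat F c r D n M ar MB q₀ Q x u p e s qe o z g gc gT g₀ B G T H TH Ht →
    Q + k + (C + u + x) ≤ q₀ → (∀ i, qe i + (C + u + x) ≤ q₀) → o 0 + (C + u) ≤ J →
    Pool.LA91.TlS F B c s r (o 1) Q k qe (G 0) (2 ^ (C + u + x) / 2 ^ q₀) := by
  obtain ⟨C₃, hC₃, hhl⟩ := Pool.V1E.hL_near D
  obtain ⟨C₄, hC₄⟩ := pow_unbounded_of_one_lt C₃ (one_lt_two (α := ℝ))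
  refine ⟨C₄ + 1, ?_⟩
  intro m J F c n M ar MB q₀ Q x u p e s qe o z g gc gT g₀ B G T H TH Ht k W hk hqe hJ
  have h1J : o 1 ≤ J := by have := W.oJ; have := W.o3; have := W.o2; omega
  have key : ∀ ω, B ω → ∀ i : Fin r,
      |(Polynomial.derivative (Pool.V1E.hL c s r (o 1) (Pool.V1E.trn r (G 0 (Pool.PB.ptr F J ω))) (Pool.KSAT.slam F (o 1) ω)
        (some i))).eval (Pool.PB.Trl.rt F (o 1) ω)| ≤ 2 ^ C₄ * (2 ^ s i * (2 ^ u / 2 ^ g₀ 0 i) / 2 ^ q₀) ∧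
      |(Polynomial.derivative (Pool.V1E.hL c s r (o 1) (Pool.V1E.trn r (G 0 (Pool.PB.ptr F J ω))) (Pool.KSAT.slam F (o 1) ω)
        (some i))).eval (Pool.PB.Trl.rt F (o 1) ω) -
        (Polynomial.derivative (Pool.V1E.hL c s r (o 1) (Pool.V1E.trn r (G 0 (Pool.PB.ptr F J ω))) (Pool.KSAT.slam F (o 1) ω)
          (some i))).eval 0| ≤ 2 ^ (C₄ + u + x) / 2 ^ q₀ ∧
      |(Pool.V1E.hL c s r (o 1) (Pool.V1E.trn r (G 0 (Pool.PB.ptr F J ω))) (Pool.KSAT.slam F (o 1) ω) (some i)).eval (Pool.PB.Trl.rt F (o 1) ω) -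
        (Pool.V1E.hL c s r (o 1) (Pool.V1E.trn r (G 0 (Pool.PB.ptr F J ω))) (Pool.KSAT.slam F (o 1) ω) (some i)).eval 0 -
        Pool.PB.Trl.rt F (o 1) ω * (Polynomial.derivative (Pool.V1E.hL c s r (o 1) (Pool.V1E.trn r (G 0 (Pool.PB.ptr F J ω)))
          (Pool.KSAT.slam F (o 1) ω) (some i))).eval 0| ≤ 2 ^ (C₄ + u + x) / 2 ^ q₀ := by
    intro ω hω i
    have hfr := W.fr hω
    obtain ⟨L, hL'⟩ : ∃ L, L = Pool.KSAT.slam F (o 1) ω := ⟨_, rfl⟩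
    have hco : Pool.D2R.co q₀ L = Pool.KSAT.slam F (o 0) ω := by
      have h2 := Pool.D2R.co_slam F (w := o 0) (a := o 1) (by rw [W.o1]; omega) h1J ω
      rw [hL']
      rwa [W.o1, Nat.add_sub_cancel_left, ← W.o1] at h2
    obtain ⟨a1, a2, a3⟩ := hhl (c := c) (s := s) (d := r) (wb := o 0) (q₀ := q₀) (H₀ := H 0)
      (L := L) (M := 2 ^ u / 2 ^ g₀ 0 i) (i := i) (W.dH 0 _ _) (fun τ hτ => by
        rw [hco]
        exact W.own0 ω hω i i.2 τ hτ) _ (Pool.PB.Trl.rt_mem F (o 1) ω)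
    rw [← W.o1, hL', hfr] at a1 a2 a3
    have hX : C₃ * (2 ^ s i * (2 ^ u / 2 ^ g₀ 0 i) / 2 ^ q₀) / 2 ^ q₀ ≤
        2 ^ (C₄ + u + x) / 2 ^ q₀ := by
      refine div_le_div_of_nonneg_right ?_ (by positivity)
      have h2 : (2 : ℝ) ^ s i / 2 ^ (g₀ 0 i + q₀) ≤ 2 ^ x := Pool.V1E.p2_div (W.n0 i i.2)
      have e1 : C₃ * (2 ^ s i * (2 ^ u / 2 ^ g₀ 0 i) / 2 ^ q₀) =
          C₃ * (2 ^ u * ((2 : ℝ) ^ s i / 2 ^ (g₀ 0 i + q₀))) := by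
        rw [pow_add 2 (g₀ 0 i)]
        field_simp
      rw [e1]
      calc C₃ * (2 ^ u * ((2 : ℝ) ^ s i / 2 ^ (g₀ 0 i + q₀))) ≤ 2 ^ C₄ * (2 ^ u * 2 ^ x) := by
            refine mul_le_mul hC₄.le (mul_le_mul_of_nonneg_left h2 (by positivity))
              (by positivity) (by positivity)
        _ = 2 ^ (C₄ + u + x) := by rw [pow_add, pow_add]; ring
    refine ⟨a1.trans (mul_le_mul_of_nonneg_right hC₄.le (by positivity)), a2.trans hX,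
      a3.trans hX⟩
  have hδ : 2 * ((2 : ℝ) ^ (C₄ + u + x) / 2 ^ q₀) = 2 ^ (C₄ + 1 + u + x) / 2 ^ q₀ := by
    have : (2 : ℝ) ^ (C₄ + 1 + u + x) = 2 * 2 ^ (C₄ + u + x) := by
      rw [show C₄ + 1 + u + x = (C₄ + u + x) + 1 by ring, pow_succ]
      ring
    rw [this]
    ring
  have hX0 : (0 : ℝ) ≤ 2 ^ (C₄ + u + x) / 2 ^ q₀ := by positivity
  refine ⟨fun ω hω i => ?_, fun ω hω i => ?_, ?_, fun i => ?_, fun ω hω i hi => ?_⟩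
  · obtain ⟨-, a2, a3⟩ := key ω hω i
    rw [← hδ]
    have hu := Pool.PB.Trl.rt_mem F (o 1) ω
    obtain ⟨h0, hh0⟩ : ∃ y, y = (Pool.V1E.hL c s r (o 1) (Pool.V1E.trn r (G 0 (Pool.PB.ptr F J ω))) (Pool.KSAT.slam F (o 1) ω)
      (some i)).eval 0 := ⟨_, rfl⟩
    obtain ⟨hr1, hhr1⟩ : ∃ y, y = (Pool.V1E.hL c s r (o 1) (Pool.V1E.trn r (G 0 (Pool.PB.ptr F J ω))) (Pool.KSAT.slam F (o 1) ω)
      (some i)).eval (Pool.PB.Trl.rt F (o 1) ω) := ⟨_, rfl⟩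
    obtain ⟨d0, hd0⟩ : ∃ y, y = (Polynomial.derivative (Pool.V1E.hL c s r (o 1) (Pool.V1E.trn r (G 0 (Pool.PB.ptr F J ω)))
      (Pool.KSAT.slam F (o 1) ω) (some i))).eval 0 := ⟨_, rfl⟩
    obtain ⟨d1, hd1⟩ : ∃ y, y = (Polynomial.derivative (Pool.V1E.hL c s r (o 1) (Pool.V1E.trn r (G 0 (Pool.PB.ptr F J ω)))
      (Pool.KSAT.slam F (o 1) ω) (some i))).eval (Pool.PB.Trl.rt F (o 1) ω) := ⟨_, rfl⟩
    rw [← hd0, ← hd1] at a2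
    rw [← hh0, ← hhr1, ← hd0] at a3
    rw [← hh0, ← hhr1, ← hd1]
    have e1 : hr1 - h0 - Pool.PB.Trl.rt F (o 1) ω * d1 = (hr1 - h0 - Pool.PB.Trl.rt F (o 1) ω * d0) -
        Pool.PB.Trl.rt F (o 1) ω * (d1 - d0) := by ring
    rw [e1]
    refine (abs_sub _ _).trans ?_
    have e2 : |Pool.PB.Trl.rt F (o 1) ω * (d1 - d0)| ≤ 1 * (2 ^ (C₄ + u + x) / 2 ^ q₀) := by
      rw [abs_mul, abs_of_nonneg hu.1]
      exact mul_le_mul hu.2 a2 (abs_nonneg _) zero_le_one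
    linarith
  · obtain ⟨-, a2, -⟩ := key ω hω i
    rw [← hδ]
    linarith
  · rw [mul_div_assoc', div_le_one (by positivity), ← pow_add]
    exact pow_le_pow_right₀ (by norm_num) (by omega)
  · rw [mul_div_assoc', div_le_one (by positivity), ← pow_add]
    exact pow_le_pow_right₀ (by norm_num) (hqe i)
  · obtain ⟨a1, -, -⟩ := key ω hω ⟨i, hi⟩
    rw [Pool.LA91.hv_eq h1J ⟨i, hi⟩ ω] at a1
    have hs : (0 : ℝ) < 2 ^ s i := by positivity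
    have e1 : |(2 : ℝ) ^ s i * (1 / 2 ^ o 1 * Pool.LA91.ojet F (c i) 1 (G 0 (Pool.PB.ptr F J ω) i) ω)| =
        2 ^ s i * (1 / 2 ^ o 1 * |Pool.LA91.ojet F (c i) 1 (G 0 (Pool.PB.ptr F J ω) i) ω|) := by
      rw [abs_mul, abs_mul, abs_of_pos hs, abs_of_pos (show (0 : ℝ) < 1 / 2 ^ o 1 by positivity)]
    have a1' : (2 : ℝ) ^ s i * (1 / 2 ^ o 1 * |Pool.LA91.ojet F (c i) 1 (G 0 (Pool.PB.ptr F J ω) i) ω|) ≤
        2 ^ C₄ * (2 ^ s i * (2 ^ u / 2 ^ g₀ 0 i) / 2 ^ q₀) := by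
      rw [← e1]
      exact a1
    have e2 : (2 : ℝ) ^ C₄ * (2 ^ s i * (2 ^ u / 2 ^ g₀ 0 i) / 2 ^ q₀) =
        2 ^ s i * (1 / 2 ^ o 1 * (2 ^ (C₄ + u + o 0) / 2 ^ g₀ 0 i)) := by
      rw [W.o1, pow_add 2 (o 0), pow_add 2 (C₄ + u), pow_add 2 C₄]
      field_simp
    rw [e2] at a1'
    have h3 := le_of_mul_le_mul_left (le_of_mul_le_mul_left a1' hs) (by positivity)
    refine h3.trans ?_
    have h4 : (2 : ℝ) ^ (C₄ + u + o 0) ≤ 2 ^ J := pow_le_pow_right₀ (by norm_num) (by omega)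
    refine (div_le_self (by positivity) (one_le_pow₀ (by norm_num))).trans h4

end Pool.W.V1E
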